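import Pool.Agent.H487.GA.Stm2
import Pool.Graph.R_seed8.H370R2.DirGood

set_option autoImplicit false

/-!
# Project GA, task OFF (helper640): the zeros off the line may be moved to the line
-/

open Finset Complex Filter Topology Metric Set MeasureTheory

namespace Pool.Agent.H640.GA

open Pool.Agent.H487.GA

noncomputable section

/-- the reflection in the critical line -/
def sig (s : ℂ) : ℂ := 1 - (starRingEnd ℂ) s

theorem sig_sig (s : ℂ) : sig (sig s) = s := by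
  unfold sig
  rw [map_sub, map_one, Complex.conj_conj]
  ring

theorem sig_re (s : ℂ) : (sig s).re = 1 - s.re := by
  simp [sig]

theorem sig_im (s : ℂ) : (sig s).im = s.im := by
  simp [sig]

theorem mz_sig {s : ℂ} (h1 : 0 < s.re) (h2 : s.re < 1) (h3 : 1 ≤ s.im) : mz (sig s) = mz s := by
  unfold mz sig analyticOrderNatAt
  rw [H370.good_zeta.symm s h1 h2 h3]

theorem sig_mem {A B : ℝ} (hA : 1 ≤ A) {s : ℂ} (hs : s ∈ ZI A B) : sig s ∈ ZI A B := by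
  obtain ⟨h1, h2, h3, h4, h5⟩ := hs
  have him : 1 ≤ s.im := by linarith
  refine ⟨by rw [sig_re]; linarith, by rw [sig_re]; linarith, by rw [sig_im]; exact h3,
    by rw [sig_im]; exact h4, ?_⟩
  have e := H370.good_zeta.symm s h1 h2 him
  by_contra hne
  have ha : AnalyticAt ℂ riemannZeta (sig s) := H370.good_zeta.an _ (by rw [sig_im]; linarith)
  have hb : AnalyticAt ℂ riemannZeta s := H370.good_zeta.an _ (by linarith)
  have e0 : analyticOrderAt riemannZeta (sig s) = 0 := ha.analyticOrderAt_eq_zero.2 hne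
  unfold sig at e0
  rw [e] at e0
  exact hb.analyticOrderAt_eq_zero.1 e0 h5

/-- the term of a zero -/
def Ft (y t : ℝ) (ρ : ℂ) : ℝ :=
  y * (1 / ((t : ℂ) - I * y - zz ρ)).im - y ^ 2 / ((ρ.im - t) ^ 2 + y ^ 2)

theorem Ft_eq (y t : ℝ) (ρ : ℂ) : Ft y t ρ =
    y * ((y - (ρ.re - 1 / 2)) / ((t - ρ.im) ^ 2 + (y - (ρ.re - 1 / 2)) ^ 2)) -
      y ^ 2 / ((ρ.im - t) ^ 2 + y ^ 2) := by
  unfold Ft
  have hre : ((t : ℂ) - I * y - zz ρ).re = t - ρ.im := by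
    simp [zz]
    ring
  have him : ((t : ℂ) - I * y - zz ρ).im = -(y - (ρ.re - 1 / 2)) := by
    simp [zz]
    ring
  rw [one_div, Complex.inv_im, Complex.normSq_apply, hre, him]
  ring

/-- the term of a pair of zeros -/
def Ht (y b g t : ℝ) : ℝ :=
  y * ((y - b) / ((t - g) ^ 2 + (y - b) ^ 2)) + y * ((y + b) / ((t - g) ^ 2 + (y + b) ^ 2)) -
    2 * (y ^ 2 / ((g - t) ^ 2 + y ^ 2))

theorem pair_eq (y t : ℝ) (ρ : ℂ) : Ft y t ρ + Ft y t (sig ρ) = Ht y (ρ.re - 1 / 2) ρ.im t := by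
  rw [Ft_eq, Ft_eq, sig_re, sig_im]
  unfold Ht
  have e : y - (1 - ρ.re - 1 / 2) = y + (ρ.re - 1 / 2) := by ring
  rw [e]
  ring

theorem Ht_meas (y b g : ℝ) : Measurable (fun t => ENNReal.ofReal |Ht y b g t|) := by
  unfold Ht
  fun_prop

theorem off_proof : S_OFFA → S_DENY → S_OFF := by
  rintro ⟨C1, hC1, hA⟩ ⟨C2, T0, hC2, hT0, hD⟩
  refine ⟨C1 * C2, T0, mul_pos hC1 hC2, hT0, ?_⟩
  intro T hT y hy hy2
  obtain ⟨hfin, hsum⟩ := hD T hT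
  have hT10 : 10 ≤ T := hT0.trans hT
  have hlog : 0 < Real.log T := Real.log_pos (by linarith)
  set Z : Finset ℂ := hfin.toFinset with hZ
  have hmemZ : ∀ ρ, ρ ∈ Z ↔ ρ ∈ ZI (T / 2) (3 * T) := fun ρ => by rw [hZ, Set.Finite.mem_toFinset]
  have hsumZ : ∀ F : ℂ → ℝ, ∑ᶠ ρ ∈ ZI (T / 2) (3 * T), F ρ = ∑ ρ ∈ Z, F ρ := by
    intro F
    rw [finsum_mem_eq_finite_toFinset_sum _ hfin]
  have hsigZ : ∀ ρ ∈ Z, sig ρ ∈ Z := fun ρ hρ =>
    (hmemZ _).2 (sig_mem (by linarith) ((hmemZ _).1 hρ))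
  have hmz : ∀ ρ ∈ Z, mz (sig ρ) = mz ρ := by
    intro ρ hρ
    obtain ⟨h1, h2, h3, -, -⟩ := (hmemZ _).1 hρ
    exact mz_sig h1 h2 (by linarith)
  have hsym : ∀ t : ℝ, ∑ ρ ∈ Z, (mz ρ : ℝ) * Ft y t ρ =
      ∑ ρ ∈ Z, (mz ρ : ℝ) / 2 * Ht y (ρ.re - 1 / 2) ρ.im t := by
    intro t
    have h1 : ∑ ρ ∈ Z, (mz ρ : ℝ) * Ft y t (sig ρ) = ∑ ρ ∈ Z, (mz ρ : ℝ) * Ft y t ρ := by
      refine Finset.sum_nbij' sig sig hsigZ hsigZ (fun ρ _ => sig_sig ρ) (fun ρ _ => sig_sig ρ) ?_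
      intro ρ hρ
      rw [hmz ρ hρ]
    have h2 : ∑ ρ ∈ Z, (mz ρ : ℝ) / 2 * Ht y (ρ.re - 1 / 2) ρ.im t =
        (∑ ρ ∈ Z, (mz ρ : ℝ) * Ft y t ρ) / 2 + (∑ ρ ∈ Z, (mz ρ : ℝ) * Ft y t (sig ρ)) / 2 := by
      rw [Finset.sum_div, Finset.sum_div, ← Finset.sum_add_distrib]
      refine Finset.sum_congr rfl fun ρ _ => ?_
      rw [← pair_eq]
      ring
    rw [h2, h1]
    ring
  have hpt : ∀ t : ℝ, ENNReal.ofReal |∑ᶠ ρ ∈ ZI (T / 2) (3 * T), (mz ρ : ℝ) *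
      (y * (1 / ((t : ℂ) - I * y - zz ρ)).im - y ^ 2 / ((ρ.im - t) ^ 2 + y ^ 2))| ≤
      ∑ ρ ∈ Z, ENNReal.ofReal ((mz ρ : ℝ) / 2) *
        ENNReal.ofReal |Ht y (ρ.re - 1 / 2) ρ.im t| := by
    intro t
    rw [hsumZ (fun ρ => (mz ρ : ℝ) *
      (y * (1 / ((t : ℂ) - I * y - zz ρ)).im - y ^ 2 / ((ρ.im - t) ^ 2 + y ^ 2)))]
    have e := hsym t
    unfold Ft at e
    rw [e]
    have h1 : |∑ ρ ∈ Z, (mz ρ : ℝ) / 2 * Ht y (ρ.re - 1 / 2) ρ.im t| ≤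
        ∑ ρ ∈ Z, (mz ρ : ℝ) / 2 * |Ht y (ρ.re - 1 / 2) ρ.im t| := by
      refine (Finset.abs_sum_le_sum_abs _ _).trans (le_of_eq ?_)
      refine Finset.sum_congr rfl fun ρ _ => ?_
      rw [abs_mul, abs_of_nonneg (by positivity : (0 : ℝ) ≤ (mz ρ : ℝ) / 2)]
    refine (ENNReal.ofReal_le_ofReal h1).trans (le_of_eq ?_)
    rw [ENNReal.ofReal_sum_of_nonneg (fun ρ _ => by positivity)]
    refine Finset.sum_congr rfl fun ρ _ => ?_
    rw [ENNReal.ofReal_mul (by positivity)]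
  calc ∫⁻ t in Icc T (2 * T), ENNReal.ofReal |∑ᶠ ρ ∈ ZI (T / 2) (3 * T), (mz ρ : ℝ) *
        (y * (1 / ((t : ℂ) - I * y - zz ρ)).im - y ^ 2 / ((ρ.im - t) ^ 2 + y ^ 2))|
      ≤ ∫⁻ t in Icc T (2 * T), ∑ ρ ∈ Z, ENNReal.ofReal ((mz ρ : ℝ) / 2) *
        ENNReal.ofReal |Ht y (ρ.re - 1 / 2) ρ.im t| := lintegral_mono fun t => hpt t
    _ ≤ ∫⁻ t : ℝ, ∑ ρ ∈ Z, ENNReal.ofReal ((mz ρ : ℝ) / 2) *
        ENNReal.ofReal |Ht y (ρ.re - 1 / 2) ρ.im t| := setLIntegral_le_lintegral _ _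
    _ = ∑ ρ ∈ Z, ENNReal.ofReal ((mz ρ : ℝ) / 2) *
        ∫⁻ t : ℝ, ENNReal.ofReal |Ht y (ρ.re - 1 / 2) ρ.im t| := by
        rw [lintegral_finsetSum _ (fun ρ _ => (Ht_meas _ _ _).const_mul _)]
        refine Finset.sum_congr rfl fun ρ _ => ?_
        rw [lintegral_const_mul _ (Ht_meas _ _ _)]
    _ ≤ ∑ ρ ∈ Z, ENNReal.ofReal ((mz ρ : ℝ) / 2) *
        ENNReal.ofReal (C1 * (ρ.re - 1 / 2) ^ 2 / y) := by
        refine Finset.sum_le_sum fun ρ _ => ?_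
        exact mul_le_mul_right (hA y (ρ.re - 1 / 2) ρ.im hy) _
    _ = ENNReal.ofReal (∑ ρ ∈ Z, (mz ρ : ℝ) / 2 * (C1 * (ρ.re - 1 / 2) ^ 2 / y)) := by
        rw [ENNReal.ofReal_sum_of_nonneg (fun ρ _ => by positivity)]
        refine Finset.sum_congr rfl fun ρ _ => ?_
        rw [ENNReal.ofReal_mul (by positivity)]
    _ ≤ ENNReal.ofReal (C1 * C2 * T / (y * Real.log T)) := by
        apply ENNReal.ofReal_le_ofReal
        rw [hsumZ] at hsum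
        have h1 : ∑ ρ ∈ Z, (mz ρ : ℝ) / 2 * (C1 * (ρ.re - 1 / 2) ^ 2 / y) ≤
            C1 / y * ∑ ρ ∈ Z, (mz ρ : ℝ) * ((ρ.re - 1 / 2) ^ 2 *
              Real.exp (Real.log T * |ρ.re - 1 / 2| / 2)) := by
          rw [Finset.mul_sum]
          refine Finset.sum_le_sum fun ρ _ => ?_
          have he : 1 ≤ Real.exp (Real.log T * |ρ.re - 1 / 2| / 2) :=
            Real.one_le_exp (by positivity)
          have e1 : (mz ρ : ℝ) / 2 * (C1 * (ρ.re - 1 / 2) ^ 2 / y) =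
              C1 / y * ((mz ρ : ℝ) * ((ρ.re - 1 / 2) ^ 2 * (1 / 2))) := by ring
          rw [e1]
          gcongr
          linarith
        refine h1.trans ?_
        have h2 : C1 / y * ∑ ρ ∈ Z, (mz ρ : ℝ) * ((ρ.re - 1 / 2) ^ 2 *
            Real.exp (Real.log T * |ρ.re - 1 / 2| / 2)) ≤ C1 / y * (C2 * T / Real.log T) :=
          mul_le_mul_of_nonneg_left hsum (by positivity)
        refine h2.trans (le_of_eq ?_)
        field_simp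

end

end Pool.Agent.H640.GA
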